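import Pool.Agent.W2helper43.BD.Stm

/-!
Piece CMPE of project BD: the Brauer map of the idempotent `e`. (By helper54.)
-/

set_option autoImplicit false

namespace Pool.Agent.W2helper43.BD

open Finset

namespace Cmpe

theorem e_coeff {Λ V G Γ : Type} [CommRing Λ] [Group V] [Group G] [Group Γ] [Finite V]
    (D : Dat Λ V G Γ) (v : V) : D.e.coeff (D.iV v) = D.c * D.θ v⁻¹ := by
  classical
  have := Fintype.ofFinite V
  rw [D.e_eq, MonoidAlgebra.coeff_sum, Finsupp.finsetSum_apply]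
  rw [Finset.sum_eq_single v]
  · rw [MonoidAlgebra.coeff_single, Finsupp.single_eq_same]
  · intro u _ hu
    rw [MonoidAlgebra.coeff_single, Finsupp.single_eq_of_ne]
    exact fun h => hu (D.injV h.symm)
  · intro h
    exact absurd (Finset.mem_univ v) h

theorem e_coeff_zero {Λ V G Γ : Type} [CommRing Λ] [Group V] [Group G] [Group Γ] [Finite V]
    (D : Dat Λ V G Γ) (γ : Γ) (h : ∀ v, D.iV v ≠ γ) : D.e.coeff γ = 0 := by
  classical
  have := Fintype.ofFinite V
  rw [D.e_eq, MonoidAlgebra.coeff_sum, Finsupp.finsetSum_apply]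
  refine Finset.sum_eq_zero fun u _ => ?_
  rw [MonoidAlgebra.coeff_single, Finsupp.single_eq_of_ne]
  exact fun h' => h u h'.symm

theorem card_modEq {ℓ : ℕ} (hℓ : ℓ.Prime) {Λ V G Γ : Type} [CommRing Λ] [Group V] [Group G]
    [Group Γ] [Finite V] (D : Dat Λ V G Γ) (H : Subgroup G) (hH : IsPGroup ℓ H) :
    Nat.card V ≡ Nat.card ((Subgroup.centralizer ((H.map D.iG : Subgroup Γ) : Set Γ)).comap D.iV)
      [MOD ℓ] := by
  have : Fact ℓ.Prime := ⟨hℓ⟩
  have hn : D.iV.range.Normal := ⟨fun n hn g => by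
    obtain ⟨v, rfl⟩ := hn
    obtain ⟨w, hw⟩ := D.normal g v
    exact ⟨w, hw⟩⟩
  let act : MulAction ↥H ↥D.iV.range := MulAction.compHom _
    ((MulAut.conjNormal (H := D.iV.range)).comp (D.iG.comp H.subtype))
  have hfin : Finite ↥D.iV.range := Set.finite_range D.iV
  have key := @IsPGroup.card_modEq_card_fixedPoints ℓ ↥H _ hH _ ↥D.iV.range act hfin
  have h1 : Nat.card ↥D.iV.range = Nat.card V :=
    (Nat.card_congr (D.iV.ofInjective D.injV).toEquiv).symm
  have h2 : Nat.card ↥(@MulAction.fixedPoints ↥H ↥D.iV.range _ act) =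
      Nat.card ((Subgroup.centralizer ((H.map D.iG : Subgroup Γ) : Set Γ)).comap D.iV) := by
    symm
    refine Nat.card_congr (Equiv.ofBijective (fun v => ⟨⟨D.iV v, v, rfl⟩, ?_⟩) ⟨?_, ?_⟩)
    · intro h
      apply Subtype.ext
      change D.iG h * D.iV v * (D.iG h)⁻¹ = D.iV v
      rw [mul_inv_eq_iff_eq_mul]
      have h3 := v.2
      rw [Subgroup.mem_comap, Subgroup.mem_centralizer_iff] at h3
      exact h3 _ ⟨h, h.2, rfl⟩
    · intro v w h
      have h' := congrArg (fun z => ((z.1 : ↥D.iV.range) : Γ)) h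
      exact Subtype.ext (D.injV h')
    · rintro ⟨⟨_, v, rfl⟩, hv⟩
      refine ⟨⟨v, ?_⟩, rfl⟩
      rw [Subgroup.mem_comap, Subgroup.mem_centralizer_iff]
      rintro _ ⟨h, hh, rfl⟩
      have h3 := congrArg Subtype.val (hv ⟨h, hh⟩)
      change D.iG h * D.iV v * (D.iG h)⁻¹ = D.iV v at h3
      rwa [mul_inv_eq_iff_eq_mul] at h3
  rw [h1, h2] at key
  exact key

theorem incl_coeff {k Γ : Type} [CommRing k] [Group Γ] (N : Subgroup Γ) (x : MonoidAlgebra k N)
    (n : N) : (incl N x).coeff (n : Γ) = x.coeff n := by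
  change (Finsupp.mapDomain N.subtype x.coeff) (N.subtype n) = _
  exact Finsupp.mapDomain_apply N.subtype_injective _ _

theorem incl_coeff_zero {k Γ : Type} [CommRing k] [Group Γ] (N : Subgroup Γ)
    (x : MonoidAlgebra k N) (γ : Γ) (h : γ ∉ N) : (incl N x).coeff γ = 0 := by
  change (Finsupp.mapDomain N.subtype x.coeff) γ = _
  apply Finsupp.mapDomain_of_notMem_range
  rintro ⟨n, rfl⟩
  exact h n.2

end Cmpe

open Cmpe in
theorem p_cmpe : P_CMPE := by
  intro ℓ hℓ Λ V G Γ _ _ _ _ _ _ _ _ _ D H hH D1 hN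
  classical
  have hc : IsLocalRing.residue Λ D.c = IsLocalRing.residue Λ D1.c := by
    have h1 := congrArg (IsLocalRing.residue Λ) D.hc
    have h2 := congrArg (IsLocalRing.residue Λ) D1.hc
    rw [map_mul, map_one, map_natCast] at h1 h2
    have h3 : (Nat.card V : IsLocalRing.ResidueField Λ) =
        (Nat.card ((Subgroup.centralizer ((H.map D.iG : Subgroup Γ) : Set Γ)).comap D.iV) :
          IsLocalRing.ResidueField Λ) :=
      (CharP.natCast_eq_natCast' (IsLocalRing.ResidueField Λ) ℓ (card_modEq hℓ D H hH))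
    rw [← h3] at h2
    have h4 : (Nat.card V : IsLocalRing.ResidueField Λ) ≠ 0 := right_ne_zero_of_mul_eq_one h1
    exact mul_right_cancel₀ h4 (h1.trans h2.symm)
  apply MonoidAlgebra.coeff_injective
  ext γ
  have hl : (br (H.map D.iG) D.e).coeff γ =
      if γ ∈ Subgroup.centralizer ((H.map D.iG : Subgroup Γ) : Set Γ) then
        IsLocalRing.residue Λ (D.e.coeff γ) else 0 := by
    rw [br, cut, MonoidAlgebra.coeff_ofCoeff, Finsupp.filter_apply]
    have h1 : (red D.e).coeff γ = IsLocalRing.residue Λ (D.e.coeff γ) := rfl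
    by_cases h : γ ∈ Subgroup.centralizer ((H.map D.iG : Subgroup Γ) : Set Γ)
    · rw [if_pos h, if_pos h, h1]
    · rw [if_neg h, if_neg h]
  have hr : ∀ n : (Subgroup.normalizer ((H.map D.iG : Subgroup Γ) : Set Γ)),
      (red D1.e).coeff n = IsLocalRing.residue Λ (D1.e.coeff n) := fun n => rfl
  rw [hl]
  by_cases hγ : ∃ v, D.iV v = γ ∧ D.iV v ∈ Subgroup.centralizer ((H.map D.iG : Subgroup Γ) : Set Γ)
  · obtain ⟨v, rfl, hv⟩ := hγ
    rw [if_pos hv, e_coeff]
    have h1 := hN.hV ⟨v, hv⟩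
    have h2 : D.iV v = ((D1.iV ⟨v, hv⟩ : Subgroup.normalizer ((H.map D.iG : Subgroup Γ) : Set Γ)) : Γ) :=
      h1.symm
    rw [h2, incl_coeff, hr, e_coeff, map_mul, map_mul, hc]
    congr 2
    rw [hN.hθ]
    rfl
  · have h0 : (if γ ∈ Subgroup.centralizer ((H.map D.iG : Subgroup Γ) : Set Γ) then
        IsLocalRing.residue Λ (D.e.coeff γ) else 0) = 0 := by
      split_ifs with h
      · rw [e_coeff_zero D γ, map_zero]
        intro v hv
        exact hγ ⟨v, hv, hv ▸ h⟩
      · rfl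
    rw [h0]
    symm
    by_cases hn : γ ∈ Subgroup.normalizer ((H.map D.iG : Subgroup Γ) : Set Γ)
    · have h2 : γ = ((⟨γ, hn⟩ : Subgroup.normalizer ((H.map D.iG : Subgroup Γ) : Set Γ)) : Γ) := rfl
      rw [h2, incl_coeff, hr, e_coeff_zero D1, map_zero]
      intro v hv
      apply hγ
      have h3 := hN.hV v
      rw [hv] at h3
      exact ⟨v, h3.symm, v.2⟩
    · exact incl_coeff_zero _ _ _ hn

end Pool.Agent.W2helper43.BD
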