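import Pool.Agent.W2helper43.BD.Stm

open CategoryTheory

namespace Pool.Agent.W2helper43.BD

namespace DEFB

theorem coeff_conj {k Γ : Type} [CommRing k] [Group Γ] (γ g : Γ) (r : MonoidAlgebra k Γ) :
    (conj γ r).coeff g = r.coeff (γ⁻¹ * g * γ) := by
  unfold conj
  rw [MonoidAlgebra.coeff_mul_single_apply, MonoidAlgebra.coeff_single_mul_apply]
  simp [mul_assoc]

end DEFB

open DEFB in
theorem p_defb : P_DEFB := by
  intro hE hPHI hCOEF hCONJ hORB ℓ hℓ Λ V G Γ _ _ _ _ _ _ _ _ _ D b hb hbc Q hQ hne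
  classical
  have : Fintype (Γ ⧸ D.I) := Fintype.ofFinite _
  obtain ⟨-, -, hcos, -, -, -⟩ := hCONJ hE hPHI hCOEF D b hb hbc
  -- an element of the centralizer
  obtain ⟨γ, hγ⟩ : ∃ γ, (br Q (D.F b)).coeff γ ≠ 0 := by
    by_contra h
    push Not at h
    apply hne
    apply MonoidAlgebra.coeff_injective
    ext γ
    simpa using h γ
  have hγ2 : γ ∈ Subgroup.centralizer (Q : Set Γ) ∧
      IsLocalRing.residue Λ ((D.F b).coeff γ) ≠ 0 := by
    unfold br cut red at hγ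
    rw [MonoidAlgebra.coeff_ofCoeff, Finsupp.filter_apply] at hγ
    split_ifs at hγ with h1
    · exact ⟨h1, by simpa using hγ⟩
    · exact absurd rfl hγ
  obtain ⟨hC, hr⟩ := hγ2
  rw [Subgroup.mem_centralizer_iff] at hC
  set s : Γ ⧸ D.I → IsLocalRing.ResidueField Λ :=
    fun x => IsLocalRing.residue Λ ((conj x.out (D.f b)).coeff γ) with hs
  have hsum : ∑ x, s x ≠ 0 := by
    have h1 : ∑ x, s x = IsLocalRing.residue Λ ((D.F b).coeff γ) := by
      rw [D.F_eq, MonoidAlgebra.coeff_sum, Finsupp.finsetSum_apply, map_sum]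
    rw [h1]
    exact hr
  have hinv : ∀ (q : Q) x, s (q • x) = s x := by
    intro q x
    simp only [hs]
    have h1 : conj (q • x).out (D.f b) = conj ((q : Γ) * x.out) (D.f b) := by
      apply hcos
      rw [← QuotientGroup.eq, QuotientGroup.out_eq']
      have h2 : ((((q : Γ) * x.out : Γ)) : Γ ⧸ D.I) = (q : Γ) • ((x.out : Γ) : Γ ⧸ D.I) := rfl
      rw [h2, QuotientGroup.out_eq']
      rfl
    rw [h1, coeff_conj, coeff_conj]
    congr 2
    have h3 : (q : Γ) * γ = γ * q := hC q q.2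
    calc ((q : Γ) * x.out)⁻¹ * γ * ((q : Γ) * x.out)
        = x.out⁻¹ * ((q : Γ)⁻¹ * (γ * q)) * x.out := by group
      _ = x.out⁻¹ * γ * x.out := by rw [← h3]; group
  rw [hORB hℓ hQ s hinv] at hsum
  obtain ⟨x, hx, hsx⟩ := Finset.exists_ne_zero_of_sum_ne_zero hsum
  rw [Finset.mem_filter] at hx
  have hfix := hx.2
  refine ⟨x.out, x.out⁻¹ * γ * x.out, ?_, ?_, ?_⟩
  · intro q hq
    have h1 : (⟨q, hq⟩ : Q) • x = x := hfix ⟨q, hq⟩
    have h2 : ((x.out : Γ) : Γ ⧸ D.I) = ((q * x.out : Γ) : Γ ⧸ D.I) := by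
      have h3 : ((q * x.out : Γ) : Γ ⧸ D.I) = q • ((x.out : Γ) : Γ ⧸ D.I) := rfl
      rw [h3, QuotientGroup.out_eq']
      exact h1.symm
    rw [QuotientGroup.eq] at h2
    rwa [mul_assoc]
  · intro q hq
    have h3 : q * γ = γ * q := hC q hq
    calc x.out⁻¹ * q * x.out * (x.out⁻¹ * γ * x.out)
        = x.out⁻¹ * (q * γ) * x.out := by group
      _ = x.out⁻¹ * γ * x.out * (x.out⁻¹ * q * x.out) := by rw [h3]; group
  · have h1 := hsx
    simp only [hs] at h1
    rwa [coeff_conj] at h1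

end Pool.Agent.W2helper43.BD
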