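import Mathlib

/-!
Project BD, definitions: blocks, Brauer map, defect groups, Brauer correspondents, derived
equivalence, the statement of the abelian defect group conjecture for one finite group, and the
permutational wreath products.
-/

open CategoryTheory

namespace Pool.Agent.W2helper43.BD

/-- `b` is a block idempotent of `R`: a primitive idempotent of the centre of `R`. -/
def IsBlock {R : Type} [Ring R] (b : R) : Prop :=
  b ≠ 0 ∧ IsIdempotentElem b ∧ (∀ x, b * x = x * b) ∧
    ∀ d : R, IsIdempotentElem d → (∀ x, d * x = x * d) → d * b = d → d = 0 ∨ d = b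

/-- Reduction of the coefficients modulo the maximal ideal. -/
noncomputable def red {Λ G : Type} [CommRing Λ] [IsLocalRing Λ] [Group G]
    (x : MonoidAlgebra Λ G) : MonoidAlgebra (IsLocalRing.ResidueField Λ) G :=
  MonoidAlgebra.ofCoeff (x.coeff.mapRange (IsLocalRing.residue Λ) (map_zero _))

/-- The Brauer map at `H`, for group algebras over `k`: keep the part of `x` which is supported on
the centralizer of `H`. -/
noncomputable def cut {k G : Type} [CommRing k] [Group G] (H : Subgroup G)
    (x : MonoidAlgebra k G) : MonoidAlgebra k G :=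
  open Classical in
  MonoidAlgebra.ofCoeff (x.coeff.filter (fun g => g ∈ Subgroup.centralizer (H : Set G)))

/-- The Brauer map at `H` of an element of `Λ G`: the part of the reduction of `x` modulo the
maximal ideal that is supported on the centralizer of `H`. -/
noncomputable def br {Λ G : Type} [CommRing Λ] [IsLocalRing Λ] [Group G] (H : Subgroup G)
    (x : MonoidAlgebra Λ G) : MonoidAlgebra (IsLocalRing.ResidueField Λ) G :=
  cut H (red x)

/-- `H` is a defect group of the central element `b` of `Λ G`: an `ℓ`-subgroup `H` with
`Br_H b ≠ 0`, of the largest order among the `ℓ`-subgroups with this property. -/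
def IsDefect {Λ G : Type} [CommRing Λ] [IsLocalRing Λ] [Group G] (ℓ : ℕ)
    (b : MonoidAlgebra Λ G) (H : Subgroup G) : Prop :=
  IsPGroup ℓ H ∧ br H b ≠ 0 ∧
    ∀ Q : Subgroup G, IsPGroup ℓ Q → br Q b ≠ 0 → Nat.card Q ≤ Nat.card H

/-- The inclusion of the group algebra of a subgroup. -/
noncomputable def incl {k G : Type} [CommRing k] [Group G] (N : Subgroup G) :
    MonoidAlgebra k N →+* MonoidAlgebra k G :=
  MonoidAlgebra.mapDomainRingHom k N.subtype

/-- The block `c` of `Λ N_G(H)` is the Brauer correspondent of the block `b` of `Λ G` with defect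
group `H`: `c` is a block with defect group `H` and `Br_H b * Br_H c = Br_H c`. -/
def Corr {Λ G : Type} [CommRing Λ] [IsLocalRing Λ] [Group G] (ℓ : ℕ)
    (b : MonoidAlgebra Λ G) (H : Subgroup G)
    (c : MonoidAlgebra Λ (Subgroup.normalizer (H : Set G))) : Prop :=
  IsBlock c ∧ IsDefect ℓ c (H.subgroupOf (Subgroup.normalizer (H : Set G))) ∧
    br H b * incl (Subgroup.normalizer (H : Set G))
        (br (H.subgroupOf (Subgroup.normalizer (H : Set G))) c) =
      incl (Subgroup.normalizer (H : Set G))
        (br (H.subgroupOf (Subgroup.normalizer (H : Set G))) c)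

/-- The bounded derived categories of left modules over `A` and over `B` are equivalent as
triangulated categories. -/
def DerivedEq (A B : Type) [Ring A] [Ring B] : Prop :=
  letI := HasDerivedCategory.standard (ModuleCat.{0} A)
  letI := HasDerivedCategory.standard (ModuleCat.{0} B)
  ∃ e : DerivedCategory.Bounded (ModuleCat.{0} A) ≌ DerivedCategory.Bounded (ModuleCat.{0} B),
    ∃ _ : e.functor.CommShift ℤ, e.functor.IsTriangulated

/-- The conclusion of the abelian defect group conjecture for the group `G` and the coefficient
ring `Λ`. -/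
def BroueFor (ℓ : ℕ) (Λ G : Type) [CommRing Λ] [IsLocalRing Λ] [Group G] : Prop :=
  ∀ (b : MonoidAlgebra Λ G) (hb : IsBlock b) (H : Subgroup G), IsDefect ℓ b H →
    (∀ x ∈ H, ∀ y ∈ H, x * y = y * x) →
    ∀ (c : MonoidAlgebra Λ (Subgroup.normalizer (H : Set G))) (hc : Corr ℓ b H c),
      DerivedEq hb.2.1.Corner hc.1.2.1.Corner

/-- The abelian defect group conjecture for the finite group `G` and the prime `ℓ`, over all
sufficiently large coefficient rings: there is `n > 0` such that the conclusion holds over every
complete discrete valuation ring of characteristic zero, with residue characteristic `ℓ`, which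
contains a primitive `n`-th root of unity. -/
def Broue (ℓ : ℕ) (G : Type) [Group G] : Prop :=
  ∃ n : ℕ, 0 < n ∧ ∀ (Λ : Type) [CommRing Λ] [IsDomain Λ] [IsDiscreteValuationRing Λ],
    IsAdicComplete (IsLocalRing.maximalIdeal Λ) Λ → CharZero Λ →
    CharP (IsLocalRing.ResidueField Λ) ℓ → (∃ ζ : Λ, IsPrimitiveRoot ζ n) → BroueFor ℓ Λ G

/-- The permutational wreath product of the cyclic group of order `p` with the group `A` acting
on the cosets of the subgroup `K`. -/
abbrev Wr (p : ℕ) {A : Type} [Group A] (K : Subgroup A) : Type :=
  ((A ⧸ K) → Multiplicative (ZMod p)) ⋊[mulAutArrow] A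

end Pool.Agent.W2helper43.BD
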