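import Pool.Agent.W2helper43.BD.Stm

/-!
Piece MULT of project BD: the Brauer map is multiplicative on `H`-fixed elements. (By helper54.)
-/

set_option autoImplicit false

namespace Pool.Agent.W2helper43.BD

open Finset

theorem coeff_conj' {k G : Type} [CommRing k] [Group G] (h g : G) (x : MonoidAlgebra k G) :
    (conj h x).coeff g = x.coeff (h⁻¹ * (g * h)) := by
  rw [conj, MonoidAlgebra.coeff_mul_single_apply, MonoidAlgebra.coeff_single_mul_apply, inv_inv,
    mul_one, one_mul]

theorem coeff_cut {k G : Type} [CommRing k] [Group G] (H : Subgroup G)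
    [DecidablePred fun g : G => g ∈ Subgroup.centralizer (H : Set G)] (x : MonoidAlgebra k G)
    (g : G) : (cut H x).coeff g =
      if g ∈ Subgroup.centralizer (H : Set G) then x.coeff g else 0 := by
  rw [cut, MonoidAlgebra.coeff_ofCoeff, Finsupp.filter_apply]
  congr

theorem coeff_mul_sum {k G : Type} [CommRing k] [Group G] [Fintype G] (x y : MonoidAlgebra k G)
    (g : G) : (x * y).coeff g = ∑ a : G, x.coeff a * y.coeff (a⁻¹ * g) := by
  rw [MonoidAlgebra.coeff_mul_apply_left, Finsupp.sum_fintype]
  intro a
  rw [zero_mul]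

theorem p_mult : P_MULT := by
  intro hORB ℓ hℓ k G _ _ _ _ H hH x y hx hy
  classical
  have := Fintype.ofFinite G
  apply MonoidAlgebra.coeff_injective
  ext g
  rw [coeff_cut, coeff_mul_sum, coeff_mul_sum]
  simp only [coeff_cut]
  by_cases hg : g ∈ Subgroup.centralizer (H : Set G)
  · rw [if_pos hg]
    let act : MulAction ↥H G := MulAction.compHom G ((MulAut.conj : G →* MulAut G).comp H.subtype)
    have hact : ∀ (q : ↥H) (a : G), @HSMul.hSMul _ _ _ (@instHSMul _ _ act.toSMul) q a =
      (q : G) * a * (q : G)⁻¹ := fun q a => rfl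
    have hfix : ∀ a : G, a ∈ @MulAction.fixedPoints ↥H G _ act ↔
        a ∈ Subgroup.centralizer (H : Set G) := by
      intro a
      rw [Subgroup.mem_centralizer_iff]
      constructor
      · intro h q hq
        have h1 : (q : G) * a * (q : G)⁻¹ = a := h ⟨q, hq⟩
        rw [mul_inv_eq_iff_eq_mul] at h1
        exact h1
      · intro h q
        change (q : G) * a * (q : G)⁻¹ = a
        rw [mul_inv_eq_iff_eq_mul]
        exact h q q.2
    have hinv : ∀ (q : ↥H) (a : G),
        x.coeff ((q : G) * a * (q : G)⁻¹) * y.coeff (((q : G) * a * (q : G)⁻¹)⁻¹ * g) =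
          x.coeff a * y.coeff (a⁻¹ * g) := by
      intro q a
      have h1 := congrArg (fun z => z.coeff ((q : G) * a * (q : G)⁻¹)) (hx q q.2)
      have h2 := congrArg (fun z => z.coeff (((q : G) * a * (q : G)⁻¹)⁻¹ * g)) (hy q q.2)
      simp only [coeff_conj'] at h1 h2
      rw [← h1, ← h2]
      have hqg : (q : G) * g = g * q := (Subgroup.mem_centralizer_iff.1 hg) q q.2
      congr 2
      · group
      · rw [mul_assoc _ g, ← hqg]
        group
    have key := @hORB ℓ hℓ ↥H G k _ _ _ _ _ act hH (fun a => x.coeff a * y.coeff (a⁻¹ * g))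
      (fun q a => hinv q a) (Classical.decPred _)
    rw [key, Finset.sum_filter]
    refine Finset.sum_congr rfl fun a _ => ?_
    simp only [hfix]
    by_cases ha : a ∈ Subgroup.centralizer (H : Set G)
    · rw [if_pos ha, if_pos ha, if_pos (mul_mem (inv_mem ha) hg)]
    · rw [if_neg ha, if_neg ha, zero_mul]
  · rw [if_neg hg]
    symm
    refine Finset.sum_eq_zero fun a _ => ?_
    by_cases ha : a ∈ Subgroup.centralizer (H : Set G)
    · have hn : a⁻¹ * g ∉ Subgroup.centralizer (H : Set G) := by
        intro h
        apply hg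
        have := mul_mem ha h
        rwa [mul_inv_cancel_left] at this
      rw [if_neg hn, mul_zero]
    · rw [if_neg ha, zero_mul]

end Pool.Agent.W2helper43.BD
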