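import Pool.Agent.W2helper43.BD.Stm

/-!
Project BD, piece NORM: the datum induced on the normalizer of `iG H`.
-/

set_option autoImplicit false

namespace Pool.Agent.W2helper43.BD

namespace NRM

variable {Λ V G Γ : Type} [CommRing Λ] [Group V] [Group G] [Group Γ]
  (D : Dat Λ V G Γ) (H : Subgroup G)

theorem conj_eq {v : V} {k h : G} (e : D.iV v * D.iG k * (D.iV v)⁻¹ = D.iG h) : h = k := by
  obtain ⟨w, hw⟩ := D.normal (D.iG k) v⁻¹
  have h1 : D.iV (v * w) = D.iG (h * k⁻¹) := by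
    rw [map_mul, hw, map_mul, ← e, map_inv, map_inv]
    group
  exact mul_inv_eq_one.mp (D.disj _ _ h1)

theorem mem_map {g : G} : D.iG g ∈ H.map D.iG ↔ g ∈ H :=
  Subgroup.mem_map_iff_mem D.injG

theorem v0_mem : D.iV D.v0 ∈ Subgroup.centralizer ((H.map D.iG : Subgroup Γ) : Set Γ) := by
  rw [Subgroup.mem_centralizer_iff]
  rintro _ ⟨h, -, rfl⟩
  exact D.v0_comm h

theorem iV_mem {v : V}
    (hv : v ∈ (Subgroup.centralizer ((H.map D.iG : Subgroup Γ) : Set Γ)).comap D.iV) :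
    D.iV v ∈ Subgroup.normalizer ((H.map D.iG : Subgroup Γ) : Set Γ) :=
  Subgroup.centralizer_le_normalizer _ hv

theorem iG_mem {g : G} (hg : g ∈ Subgroup.normalizer (H : Set G)) :
    D.iG g ∈ Subgroup.normalizer ((H.map D.iG : Subgroup Γ) : Set Γ) :=
  Subgroup.le_normalizer_map D.iG ⟨g, hg, rfl⟩

/-- the centralizer is stable under conjugation by the normalizer -/
theorem cent_conj {γ z : Γ} (hγ : γ ∈ Subgroup.normalizer ((H.map D.iG : Subgroup Γ) : Set Γ))
    (hz : z ∈ Subgroup.centralizer ((H.map D.iG : Subgroup Γ) : Set Γ)) :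
    γ * z * γ⁻¹ ∈ Subgroup.centralizer ((H.map D.iG : Subgroup Γ) : Set Γ) := by
  rw [Subgroup.mem_centralizer_iff] at hz ⊢
  intro h hh
  have h1 : γ⁻¹ * h * γ ∈ H.map D.iG := (Subgroup.mem_normalizer_iff''.mp hγ h).mp hh
  have h2 := hz _ h1
  calc h * (γ * z * γ⁻¹) = γ * ((γ⁻¹ * h * γ) * z) * γ⁻¹ := by group
    _ = γ * (z * (γ⁻¹ * h * γ)) * γ⁻¹ := by rw [h2]
    _ = γ * z * γ⁻¹ * h := by group

theorem sep_aux {v : V} {g : G}
    (hγ : D.iV v * D.iG g ∈ Subgroup.normalizer ((H.map D.iG : Subgroup Γ) : Set Γ)) :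
    v ∈ (Subgroup.centralizer ((H.map D.iG : Subgroup Γ) : Set Γ)).comap D.iV ∧
      g ∈ Subgroup.normalizer (H : Set G) := by
  -- conjugation of `iG h`
  have h1 : ∀ h ∈ H, g * h * g⁻¹ ∈ H ∧
      D.iV v * D.iG (g * h * g⁻¹) * (D.iV v)⁻¹ = D.iG (g * h * g⁻¹) := by
    intro h hh
    obtain ⟨h', hh', e⟩ := (Subgroup.mem_normalizer_iff.mp hγ (D.iG h)).mp
      ((mem_map D H).mpr hh)
    have e1 : D.iV v * D.iG (g * h * g⁻¹) * (D.iV v)⁻¹ = D.iG h' := by
      rw [e, map_mul, map_mul, map_inv]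
      group
    have e2 := conj_eq D e1
    subst e2
    exact ⟨hh', e1⟩
  have h2 : ∀ k ∈ H, g⁻¹ * k * g ∈ H := by
    intro k hk
    obtain ⟨h', hh', e⟩ := (Subgroup.mem_normalizer_iff''.mp hγ (D.iG k)).mp
      ((mem_map D H).mpr hk)
    have e1 : D.iV v⁻¹ * D.iG k * (D.iV v⁻¹)⁻¹ = D.iG (g * h' * g⁻¹) := by
      rw [map_mul, map_mul, e, map_inv, map_inv]
      group
    have e2 := conj_eq D e1
    have e3 : g⁻¹ * k * g = h' := by rw [← e2]; group
    rw [e3]
    exact hh'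
  constructor
  · rw [Subgroup.mem_comap, Subgroup.mem_centralizer_iff]
    rintro _ ⟨k, hk, rfl⟩
    obtain ⟨-, h3⟩ := h1 _ (h2 k hk)
    have h4 : g * (g⁻¹ * k * g) * g⁻¹ = k := by group
    rw [h4] at h3
    calc D.iG k * D.iV v = (D.iV v * D.iG k * (D.iV v)⁻¹) * D.iV v := by rw [h3]
      _ = D.iV v * D.iG k := by group
  · rw [Subgroup.mem_normalizer_iff]
    intro h
    refine ⟨fun hh => (h1 h hh).1, fun hh => ?_⟩
    have h3 := h2 _ hh
    have h4 : g⁻¹ * (g * h * g⁻¹) * g = h := by group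
    rwa [h4] at h3

/-- the induced datum -/
noncomputable def dat [Finite V] :
    Dat Λ ((Subgroup.centralizer ((H.map D.iG : Subgroup Γ) : Set Γ)).comap D.iV)
      (Subgroup.normalizer (H : Set G))
      (Subgroup.normalizer ((H.map D.iG : Subgroup Γ) : Set Γ)) where
  iV := (D.iV.comp (Subgroup.subtype _)).codRestrict _ fun v => iV_mem D H v.2
  iG := (D.iG.comp (Subgroup.subtype _)).codRestrict _ fun g => iG_mem D H g.2
  θ := D.θ.comp (Subgroup.subtype _)
  injV v w h := Subtype.ext (D.injV (congrArg Subtype.val h))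
  injG v w h := Subtype.ext (D.injG (congrArg Subtype.val h))
  disj v g h := Subtype.ext (D.disj v g (congrArg Subtype.val h))
  normal γ v := by
    obtain ⟨w, hw⟩ := D.normal γ v
    refine ⟨⟨w, ?_⟩, Subtype.ext hw⟩
    rw [Subgroup.mem_comap, hw]
    exact cent_conj D H γ.2 v.2
  inv g v w h := D.inv g v w (congrArg Subtype.val h)
  v0 := ⟨D.v0, v0_mem D H⟩
  v0_comm g := Subtype.ext (D.v0_comm g)
  sep γ w h h' := by
    obtain ⟨v, g, e⟩ := D.sep γ w (congrArg Subtype.val h) h'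
    have h1 := sep_aux D H (v := v) (g := g) (by rw [← e]; exact γ.2)
    exact ⟨⟨v, h1.1⟩, ⟨g, h1.2⟩, Subtype.ext e⟩
  c := D.c * (((Subgroup.centralizer ((H.map D.iG : Subgroup Γ) : Set Γ)).comap D.iV).index : Λ)
  hc := by
    have h1 := Subgroup.card_mul_index
      ((Subgroup.centralizer ((H.map D.iG : Subgroup Γ) : Set Γ)).comap D.iV)
    rw [mul_assoc, ← Nat.cast_mul, mul_comm (Subgroup.index _), h1]
    exact D.hc

end NRM

theorem p_norm : P_NORM := by
  intro Λ V G Γ _ _ _ _ _ _ D H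
  exact ⟨NRM.dat D H, ⟨fun _ => rfl, fun _ => rfl, fun _ => rfl⟩⟩

end Pool.Agent.W2helper43.BD
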